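import Pool.Agent.Kro.Fin1
import Pool.Agent.CFT.Ev8

/-!
# A specific vector, given by closed arithmetic terms, beating the metrical bound

`digitT d i` is a closed arithmetic term in one variable `n` (built from `n` and constants by addition,
truncated subtraction, multiplication, floor division and `x ↦ 2 ^ x`), explicitly defined in
`Pool.Agent.CFT.Data`, with values in `{0, 1}`. For every `d ≥ 1` the vector with the coordinates
`alphaT d i = ∑ (digitT d i)(n) / 2 ^ (n + 1)` lies in `[0,1)^d`, and its Kronecker sequence satisfies
`N D_N ≤ C (log N)^d log log N` for all `N ≥ 3`, `C` depending only on `d`. This is stronger than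
property (B).

Proof: (A), (B): the discrepancy bound is that of a vector produced by a greedy algorithm (nested
dyadic cubes, at every step the first subcube which is good for an explicit potential), module
`Pool.Agent.Kro`. (C) The values of the terms are the digits of this vector. Bounded sums of terms are
terms (theorem of Mazzanti and Marchenkov): the graph of a term is defined by exponential equations
with unique witnesses, and the number of the solutions in a box of an exponential equation is expressed
by the Hamming weight, i.e. by the exponent of 2 in a binomial coefficient. So bounded search and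
bounded recursion with bounded values are available, and the greedy algorithm is of this form.
-/

namespace Pool.Agent.Results.MP_3fdbfc_nt.ClosedForm

open Finset Pool.Agent.Kro Pool.Agent.CFK Pool.Agent.CFT

/-- the discrepancy `D_N` of the Kronecker sequence of `α` -/
noncomputable def disc {d : ℕ} (α : Fin d → ℝ) (N : ℕ) : ℝ :=
  sSup {x : ℝ | ∃ a b : Fin d → ℝ, (∀ i, 0 ≤ a i ∧ a i ≤ b i ∧ b i ≤ 1) ∧
    x = |(((range N).filter fun n : ℕ => ∀ i, a i ≤ Int.fract ((n : ℝ) * α i) ∧
        Int.fract ((n : ℝ) * α i) < b i).card : ℝ) / N - ∏ i, (b i - a i)|}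

theorem prod_ind {d : ℕ} (a b x : Fin d → ℝ) :
    ∏ i, ind (a i) (b i) (x i)
      = if ∀ i, a i ≤ Int.fract (x i) ∧ Int.fract (x i) < b i then 1 else 0 := by
  classical
  by_cases h : ∀ i, a i ≤ Int.fract (x i) ∧ Int.fract (x i) < b i
  · rw [if_pos h]
    apply prod_eq_one
    intro i _
    unfold ind
    rw [if_pos (h i)]
  · rw [if_neg h]
    push Not at h
    obtain ⟨i, hi⟩ := h
    apply prod_eq_zero (mem_univ i)
    unfold ind
    rw [if_neg]
    rintro ⟨h1, h2⟩
    exact absurd (hi h1) (not_le.mpr h2)

/-- For every `d ≥ 1` the vector `alphaT d`, whose coordinates `∑ (digitT d i)(n) / 2^(n+1)` have the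
binary digits given by the closed arithmetic terms `digitT d i`, is in `[0,1)^d`, and
`N D_N ≤ C (log N)^d log log N` for all `N ≥ 3`. -/
theorem result (d : ℕ) (hd : 1 ≤ d) :
    (∀ i, 0 ≤ alphaT d i ∧ alphaT d i < 1) ∧
    (∀ i n, (digitT d i).ev (fun _ => n) < 2) ∧
    ∃ C : ℝ, ∀ N : ℕ, 3 ≤ N →
      N * disc (alphaT d) N ≤ C * Real.log N ^ d * Real.log (Real.log N) := by
  refine ⟨?_, ?_, ?_⟩
  · rw [alphaT_eq]
    exact alpha_mem d hd
  · intro i n
    rw [ev_digitT]
    exact digit_lt d i n
  rw [alphaT_eq]
  obtain ⟨C, hC⟩ := final d hd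
  refine ⟨C, fun N hN => ?_⟩
  have hN0 : (0 : ℝ) < N := by
    have : 0 < N := by omega
    exact_mod_cast this
  have key : disc (alpha d) N ≤ C * Real.log N ^ d * Real.log (Real.log N) / N := by
    unfold disc
    apply csSup_le
    · exact ⟨_, fun _ => 0, fun _ => 0, fun i => ⟨le_refl _, le_refl _, zero_le_one⟩, rfl⟩
    · rintro x ⟨a, b, hab, rfl⟩
      have h := hC N hN a b hab
      have e1 : ∑ n ∈ range N, ∏ i, ind (a i) (b i) (n * alpha d i)
          = (((range N).filter fun n : ℕ => ∀ i, a i ≤ Int.fract ((n : ℝ) * alpha d i) ∧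
        Int.fract ((n : ℝ) * alpha d i) < b i).card : ℝ) := by
        rw [card_filter]
        push_cast
        apply sum_congr rfl
        intro n _
        exact prod_ind a b (fun i => (n : ℝ) * alpha d i)
      rw [e1] at h
      rw [le_div_iff₀ hN0]
      refine le_trans (le_of_eq ?_) h
      rw [← abs_of_pos hN0, ← abs_mul, abs_of_pos hN0]
      congr 1
      field_simp
  rw [le_div_iff₀ hN0] at key
  linarith [key]

end Pool.Agent.Results.MP_3fdbfc_nt.ClosedForm
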