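import Pool.Agent.Kro.DetIneq

/-!
# A deterministic criterion

If `1, α_1, ..., α_d` are linearly independent over the rationals then for all `N ≥ 2`
`N D_N ≤ C_d ((log N)^d + ∑ 1/x_h)`, `x_h = r(h) ‖h·α‖`, where the sum is over the nonzero integer
vectors `h` with `|h_i| ≤ 8N` and `x_h ≤ 4^d` only (near resonances). So property (B) follows from
the Diophantine bound `∑ 1/x_h = O((log X)^d (log log X)^(1+ε))` for the near resonances in the box
of size `X`.
-/

namespace Pool.Agent.Results.MP_3fdbfc_nt.ResonanceCriterion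

open Finset Pool.Agent.Kro

/-- the discrepancy `D_N` of the Kronecker sequence of `α` -/
noncomputable def disc {d : ℕ} (α : Fin d → ℝ) (N : ℕ) : ℝ :=
  sSup {x : ℝ | ∃ a b : Fin d → ℝ, (∀ i, 0 ≤ a i ∧ a i ≤ b i ∧ b i ≤ 1) ∧
    x = |(((range N).filter fun n : ℕ => ∀ i, a i ≤ Int.fract ((n : ℝ) * α i) ∧
        Int.fract ((n : ℝ) * α i) < b i).card : ℝ) / N - ∏ i, (b i - a i)|}

theorem prod_ind {d : ℕ} (a b x : Fin d → ℝ) :
    ∏ i, ind (a i) (b i) (x i)
      = if ∀ i, a i ≤ Int.fract (x i) ∧ Int.fract (x i) < b i then 1 else 0 := by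
  classical
  by_cases h : ∀ i, a i ≤ Int.fract (x i) ∧ Int.fract (x i) < b i
  · rw [if_pos h]
    apply prod_eq_one
    intro i _
    unfold ind
    rw [if_pos (h i)]
  · rw [if_neg h]
    push Not at h
    obtain ⟨i, hi⟩ := h
    apply prod_eq_zero (mem_univ i)
    unfold ind
    rw [if_neg]
    rintro ⟨h1, h2⟩
    exact absurd (hi h1) (not_le.mpr h2)

open Classical in
/-- the near resonances of height `X` -/
noncomputable def near {d : ℕ} (α : Fin d → ℝ) (X : ℕ) : Finset (Fin d → ℤ) :=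
  (Fintype.piFinset fun _ => Icc (-(X : ℤ)) X).filter fun h =>
    h ≠ 0 ∧ (∏ i, max 1 |(h i : ℝ)|) * |∑ i, h i * α i - round (∑ i, h i * α i)| ≤ 4 ^ d

theorem rr_cast {d : ℕ} (h : Fin d → ℤ) : (rr h : ℝ) = ∏ i, max 1 |(h i : ℝ)| := by
  unfold rr
  push_cast
  apply prod_congr rfl
  intro i _
  rw [Nat.cast_natAbs]
  push_cast
  rfl

/-- For `1, α_1, ..., α_d` linearly independent over the rationals and all `N ≥ 2`:
`N D_N ≤ C_d ((log N)^d + ∑ 1/(r(h)‖h·α‖))`, the sum over the nonzero `h` with `|h_i| ≤ 8N` and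
`r(h)‖h·α‖ ≤ 4^d`. -/
theorem result (d : ℕ) : ∃ C : ℝ, ∀ α : Fin d → ℝ,
    (∀ h : Fin d → ℤ, h ≠ 0 → ∀ m : ℤ, ∑ i, h i * α i ≠ m) → ∀ N : ℕ, 2 ≤ N →
    N * disc α N ≤ C * (Real.log N ^ d + ∑ h ∈ near α (8 * N),
      1 / ((∏ i, max 1 |(h i : ℝ)|) * |∑ i, h i * α i - round (∑ i, h i * α i)|)) := by
  classical
  obtain ⟨C, hC0, hC⟩ := det_ineq d
  have hlog2 : 0 < Real.log 2 := Real.log_pos (by norm_num)
  refine ⟨C * (1 + (3 / Real.log 2) ^ d), fun α hα N hN => ?_⟩
  have hN0 : (0 : ℝ) < N := by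
    have : 0 < N := by omega
    exact_mod_cast this
  have hdz : ∀ h : Fin d → ℤ, h ≠ 0 → dz (ip h α) ≠ 0 := by
    intro h h0 he
    unfold dz ip at he
    rw [abs_eq_zero, sub_eq_zero] at he
    exact hα h h0 _ he
  set K := Nat.clog 2 N with hK
  have hNK : N ≤ 2 ^ K := Nat.le_pow_clog (by norm_num) N
  have hKN : 2 ^ K ≤ 2 * N := by
    have h1 : 1 ≤ K := by
      rw [hK]
      exact Nat.clog_pos (by norm_num) hN
    have h2 : 2 ^ (K - 1) < N := by
      have := Nat.pow_pred_clog_lt_self (b := 2) (by norm_num) (x := N) (by omega)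
      rwa [Nat.pred_eq_sub_one] at this
    have h3 : 2 ^ K = 2 * 2 ^ (K - 1) := by
      rw [← pow_succ']
      congr 1
      omega
    omega
  have hlogN : Real.log 2 ≤ Real.log N := by
    apply Real.log_le_log (by norm_num)
    exact_mod_cast hN
  have hKlog : (K : ℝ) + 1 ≤ 3 / Real.log 2 * Real.log N := by
    have h1 : (K : ℝ) * Real.log 2 ≤ Real.log 2 + Real.log N := by
      have h2 : ((2 : ℝ) ^ K) ≤ 2 * N := by exact_mod_cast hKN
      have h3 := Real.log_le_log (by positivity) h2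
      rwa [Real.log_pow, Real.log_mul (by norm_num) (ne_of_gt hN0)] at h3
    have h4 : ((K : ℝ) + 1) * Real.log 2 ≤ 3 * Real.log N := by nlinarith
    calc (K : ℝ) + 1 ≤ 3 * Real.log N / Real.log 2 := by rwa [le_div_iff₀ hlog2]
      _ = 3 / Real.log 2 * Real.log N := by ring
  -- the sum
  have hterm : ∀ h : Fin d → ℤ, (∏ i, max 1 |(h i : ℝ)|) * |∑ i, h i * α i - round (∑ i, h i * α i)|
      = xx α h := by
    intro h
    unfold xx dz ip
    rw [rr_cast]
  have hsum : ∑ h ∈ (bx fun _ => 2 ^ (K + 2)).filter (fun h => h ≠ 0 ∧ xx α h ≤ 4 ^ d), 1 / xx α h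
      ≤ ∑ h ∈ near α (8 * N),
      1 / ((∏ i, max 1 |(h i : ℝ)|) * |∑ i, h i * α i - round (∑ i, h i * α i)|) := by
    simp only [hterm]
    apply sum_le_sum_of_subset_of_nonneg
    · intro h hh
      rw [mem_filter] at hh
      unfold near
      rw [mem_filter]
      refine ⟨?_, hh.2.1, ?_⟩
      · rw [Fintype.mem_piFinset]
        intro i
        have := (Fintype.mem_piFinset.mp hh.1) i
        rw [mem_Icc] at this ⊢
        have h5 : ((2 ^ (K + 2) : ℕ) : ℤ) ≤ ((8 * N : ℕ) : ℤ) := by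
          have : 2 ^ (K + 2) ≤ 8 * N := by
            rw [pow_add]
            omega
          exact_mod_cast this
        constructor
        · exact le_trans (neg_le_neg h5) this.1
        · exact le_trans this.2 h5
      · rw [hterm]
        exact hh.2.2
    · intro h _ _
      rw [← hterm]
      positivity
  have hsum0 : 0 ≤ ∑ h ∈ near α (8 * N),
      1 / ((∏ i, max 1 |(h i : ℝ)|) * |∑ i, h i * α i - round (∑ i, h i * α i)|) := by
    apply sum_nonneg
    intro h _
    positivity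
  set T1 := ∑ h ∈ near α (8 * N),
      1 / ((∏ i, max 1 |(h i : ℝ)|) * |∑ i, h i * α i - round (∑ i, h i * α i)|) with hS1
  have hfin : C * ((K + 1) ^ d
      + ∑ h ∈ (bx fun _ => 2 ^ (K + 2)).filter (fun h => h ≠ 0 ∧ xx α h ≤ 4 ^ d), 1 / xx α h)
      ≤ C * (1 + (3 / Real.log 2) ^ d) * (Real.log N ^ d + T1) := by
    have h1 : ((K : ℝ) + 1) ^ d ≤ (3 / Real.log 2) ^ d * Real.log N ^ d := by
      rw [← mul_pow]
      apply pow_le_pow_left₀ (by positivity) hKlog
    have h2 : (0 : ℝ) ≤ (3 / Real.log 2) ^ d := by positivity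
    have h3 : 0 ≤ Real.log N ^ d := pow_nonneg (le_trans hlog2.le hlogN) d
    rw [mul_assoc]
    apply mul_le_mul_of_nonneg_left _ hC0
    nlinarith [mul_nonneg h2 hsum0]
  have key : disc α N ≤ C * (1 + (3 / Real.log 2) ^ d) * (Real.log N ^ d + T1) / N := by
    unfold disc
    apply csSup_le
    · exact ⟨_, fun _ => 0, fun _ => 0, fun i => ⟨le_refl _, le_refl _, zero_le_one⟩, rfl⟩
    · rintro x ⟨a, b, hab, rfl⟩
      have h := hC α hdz a b hab K N hNK
      have e1 : ∑ n ∈ range N, ∏ i, ind (a i) (b i) (n * α i)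
          = (((range N).filter fun n : ℕ => ∀ i, a i ≤ Int.fract ((n : ℝ) * α i) ∧
        Int.fract ((n : ℝ) * α i) < b i).card : ℝ) := by
        rw [card_filter]
        push_cast
        apply sum_congr rfl
        intro n _
        exact prod_ind a b (fun i => (n : ℝ) * α i)
      rw [e1] at h
      rw [le_div_iff₀ hN0]
      refine le_trans (le_of_eq ?_) (le_trans h hfin)
      rw [← abs_of_pos hN0, ← abs_mul, abs_of_pos hN0]
      congr 1
      field_simp
  rw [le_div_iff₀ hN0] at key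
  linarith [key]

end Pool.Agent.Results.MP_3fdbfc_nt.ResonanceCriterion
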